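import Pool.Agent.Helper42.RD.Goals1
import Mathlib.NumberTheory.NumberField.Units.DirichletTheorem
import Mathlib.GroupTheory.FiniteAbelian.Basic

/-!
# Project RD (MP_fc6b1e_nt), packet RD-FIN

Elements of `Mˣ` whose valuations are multiples of `p` at all primes, pairwise incongruent modulo
`p`-th powers: their number is bounded (class number times the order of the units modulo `p`-th
powers). Port of the file of Helper95 for squares.
-/

namespace Pool.Agent.Helper19.RD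

open NumberField IsDedekindDomain Pool.Agent.Helper51.RP Pool.Agent.Helper42.RD

/-- An ideal all of whose exponents are multiples of `p` is a `p`-th power. -/
theorem exists_pw (p : ℕ) {R : Type} [CommRing R] [IsDedekindDomain R] {I : Ideal R} (hI : I ≠ 0)
    (h : ∀ v : HeightOneSpectrum R,
      p ∣ ((Associates.mk v.asIdeal).count (Associates.mk I).factors)) :
    ∃ J : Ideal R, I = J ^ p := by
  classical
  refine ⟨∏ᶠ v : HeightOneSpectrum R,
    v.asIdeal ^ ((Associates.mk v.asIdeal).count (Associates.mk I).factors / p), ?_⟩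
  have hfin : Function.HasFiniteMulSupport fun v : HeightOneSpectrum R =>
      v.asIdeal ^ ((Associates.mk v.asIdeal).count (Associates.mk I).factors / p) := by
    refine Set.Finite.subset (Ideal.hasFiniteMulSupport hI) ?_
    intro v hv hv'
    apply hv
    have h0 : (Associates.mk v.asIdeal).count (Associates.mk I).factors = 0 := by
      by_contra hne
      have h1 : v.asIdeal ^ (Associates.mk v.asIdeal).count (Associates.mk I).factors = 1 := hv'
      have h2 : v.asIdeal ∣ 1 := by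
        rw [← h1]
        exact dvd_pow_self _ hne
      exact v.isPrime.ne_top (by simpa [Ideal.one_eq_top] using isUnit_of_dvd_one h2)
    show v.asIdeal ^ ((Associates.mk v.asIdeal).count (Associates.mk I).factors / p) = 1
    rw [h0]
    simp
  rw [finprod_pow hfin]
  conv_lhs => rw [← Ideal.finprod_heightOneSpectrum_factorization hI]
  apply finprod_congr
  intro v
  unfold HeightOneSpectrum.maxPowDividing
  rw [← pow_mul, Nat.div_mul_cancel (h v)]

section
variable {M : Type} [Field M] [NumberField M]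

/-- An element with valuations divisible by `p` is congruent, modulo `p`-th powers, to an integer
whose ideal is the `p`-th power of an ideal. -/
theorem exists_int (p : ℕ) (hp : p ≠ 0) (x : Mˣ)
    (hx : ∀ w : HeightOneSpectrum (𝓞 M), (p : ℤ) ∣ ordv w (x : M)) :
    ∃ (c : 𝓞 M) (J : Ideal (𝓞 M)) (z : M), c ≠ 0 ∧ z ≠ 0 ∧ (c : M) = x * z ^ p ∧
      Ideal.span {c} = J ^ p := by
  obtain ⟨a, b, hb, hab⟩ := IsFractionRing.div_surjective (A := 𝓞 M) (x : M)
  obtain ⟨k, rfl⟩ := Nat.exists_eq_succ_of_ne_zero hp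
  have hb0 : b ≠ 0 := nonZeroDivisors.ne_zero hb
  have hb1 : (algebraMap (𝓞 M) M b) ≠ 0 := by
    rw [Ne, FaithfulSMul.algebraMap_eq_zero_iff]
    exact hb0
  have hx0 : (x : M) ≠ 0 := x.ne_zero
  have hcx : algebraMap (𝓞 M) M (a * b ^ k) = x * (algebraMap (𝓞 M) M b) ^ (k + 1) := by
    rw [← hab, map_mul, map_pow, pow_succ]
    field_simp
  have hc0 : a * b ^ k ≠ 0 := by
    intro h
    rw [h, map_zero] at hcx
    exact mul_ne_zero hx0 (pow_ne_zero _ hb1) hcx.symm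
  have hspan : (Ideal.span {a * b ^ k} : Ideal (𝓞 M)) ≠ 0 := by
    simpa only [Ideal.zero_eq_bot, ne_eq, Ideal.span_singleton_eq_bot] using hc0
  obtain ⟨J, hJ⟩ := exists_pw (k + 1) hspan (fun v => by
    have h1 := v.intValuation_if_neg hc0
    have h2 : v.valuation M (algebraMap (𝓞 M) M (a * b ^ k)) = v.intValuation (a * b ^ k) :=
      v.valuation_of_algebraMap _
    rw [h1, hcx, map_mul, map_pow] at h2
    have hvx : v.valuation M (x : M) ≠ 0 := by
      rw [Ne, map_eq_zero]; exact hx0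
    have hvb : v.valuation M (algebraMap (𝓞 M) M b) ≠ 0 := by
      rw [Ne, map_eq_zero]; exact hb1
    have h3 := congrArg WithZero.log h2
    rw [WithZero.log_mul hvx (pow_ne_zero _ hvb), WithZero.log_pow, WithZero.log_exp] at h3
    have h4 := hx v
    unfold ordv at h4
    obtain ⟨m, hm⟩ := h4
    have h5 : (((Associates.mk v.asIdeal).count
        (Associates.mk (Ideal.span {a * b ^ k} : Ideal (𝓞 M))).factors : ℕ) : ℤ) =
        ((k + 1 : ℕ) : ℤ) * (m - WithZero.log (v.valuation M (algebraMap (𝓞 M) M b))) := by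
      rw [nsmul_eq_mul] at h3
      have h6 : ((k + 1 : ℕ) : ℤ) * (m - WithZero.log (v.valuation M (algebraMap (𝓞 M) M b))) =
        ((k.succ : ℕ) : ℤ) * m -
          ((k + 1 : ℕ) : ℤ) * WithZero.log (v.valuation M (algebraMap (𝓞 M) M b)) := by
        rw [mul_sub]
      rw [h6, ← hm]
      linarith
    have h6 : (((k + 1 : ℕ)) : ℤ) ∣ ((((Associates.mk v.asIdeal).count
        (Associates.mk (Ideal.span {a * b ^ k} : Ideal (𝓞 M))).factors : ℕ) : ℤ)) := by
      rw [h5]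
      exact dvd_mul_right _ _
    exact Int.natCast_dvd_natCast.mp h6)
  exact ⟨a * b ^ k, J, algebraMap (𝓞 M) M b, hc0, hb1, hcx, hJ⟩

end

open scoped nonZeroDivisors in
theorem d_fin : D_FIN := by
  intro p hpp M _ _
  classical
  have hp0 : p ≠ 0 := hpp.out.ne_zero
  have : Group.FG (𝓞 M)ˣ := Group.fg_iff_monoid_fg.mpr inferInstance
  have : ((powMonoidHom (α := (𝓞 M)ˣ) p).range).FiniteIndex :=
    Subgroup.finiteIndex_range_powMonoidHom_of_fg (𝓞 M)ˣ hp0
  have : Finite ((𝓞 M)ˣ ⧸ (powMonoidHom (α := (𝓞 M)ˣ) p).range) :=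
    Subgroup.finiteIndex_iff_finite_quotient.mp inferInstance
  haveI := Fintype.ofFinite ((𝓞 M)ˣ ⧸ (powMonoidHom (α := (𝓞 M)ˣ) p).range)
  haveI := Fintype.ofFinite (ClassGroup (𝓞 M))
  refine ⟨Fintype.card ((𝓞 M)ˣ ⧸ (powMonoidHom (α := (𝓞 M)ˣ) p).range) *
    Fintype.card (ClassGroup (𝓞 M)), ?_⟩
  intro F hF hF2
  -- the data of the elements of `F`
  have key : ∀ x : Mˣ, ∃ (c : 𝓞 M) (J : Ideal (𝓞 M)) (z : M), x ∈ F →
      (c ≠ 0 ∧ z ≠ 0 ∧ (c : M) = x * z ^ p ∧ Ideal.span {c} = J ^ p) := by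
    intro x
    by_cases hx : x ∈ F
    · obtain ⟨c, J, z, h⟩ := exists_int p hp0 x (hF x hx)
      exact ⟨c, J, z, fun _ => h⟩
    · exact ⟨0, ⊥, 0, fun h => absurd h hx⟩
  choose c J z hcJ using key
  have hJ0 : ∀ x ∈ F, J x ≠ 0 := by
    intro x hx h0
    obtain ⟨h1, h2, h3, h4⟩ := hcJ x hx
    rw [h0] at h4
    have h5 : (Ideal.span {c x} : Ideal (𝓞 M)) = 0 := by
      rw [h4, zero_pow hp0]
    exact h1 (by simpa [Ideal.zero_eq_bot, Ideal.span_singleton_eq_bot] using h5)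
  let cl : Mˣ → ClassGroup (𝓞 M) := fun x =>
    if h : J x ≠ 0 then ClassGroup.mk0 ⟨J x, mem_nonZeroDivisors_iff_ne_zero.mpr h⟩ else 1
  -- elements with the same class differ by a unit and a `p`-th power
  have hunit : ∀ x ∈ F, ∀ y ∈ F, cl x = cl y →
      ∃ (u : (𝓞 M)ˣ) (t : M), t ≠ 0 ∧ (x : M) = ((u : 𝓞 M) : M) * y * t ^ p := by
    intro x hx y hy hxy
    obtain ⟨hx1, hx2, hx3, hx4⟩ := hcJ x hx
    obtain ⟨hy1, hy2, hy3, hy4⟩ := hcJ y hy
    have hxy' : ClassGroup.mk0 (⟨J x, mem_nonZeroDivisors_iff_ne_zero.mpr (hJ0 x hx)⟩ :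
        (Ideal (𝓞 M))⁰) = ClassGroup.mk0 ⟨J y, mem_nonZeroDivisors_iff_ne_zero.mpr (hJ0 y hy)⟩ := by
      have := hxy
      simp only [cl] at this
      rw [dif_pos (hJ0 x hx), dif_pos (hJ0 y hy)] at this
      exact this
    obtain ⟨r, q, hr, hq, hrq⟩ := ClassGroup.mk0_eq_mk0_iff.mp hxy'
    have h1 : (Ideal.span {r ^ p * c x} : Ideal (𝓞 M)) = Ideal.span {q ^ p * c y} := by
      rw [← Ideal.span_singleton_mul_span_singleton, ← Ideal.span_singleton_mul_span_singleton,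
        ← Ideal.span_singleton_pow, ← Ideal.span_singleton_pow, hx4, hy4, ← mul_pow, ← mul_pow]
      exact congrArg (· ^ p) hrq
    obtain ⟨u, hu⟩ := Ideal.span_singleton_eq_span_singleton.mp h1
    -- `r ^ p * c x * u = q ^ p * c y`
    have hrM : ((r : 𝓞 M) : M) ≠ 0 := by
      rw [Ne, FaithfulSMul.algebraMap_eq_zero_iff]; exact hr
    have hqM : ((q : 𝓞 M) : M) ≠ 0 := by
      rw [Ne, FaithfulSMul.algebraMap_eq_zero_iff]; exact hq
    have hM := congrArg (algebraMap (𝓞 M) M) hu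
    rw [map_mul, map_mul, map_mul, map_pow, map_pow] at hM
    have hM' : ((r : 𝓞 M) : M) ^ p * (x * z x ^ p) * ((u : 𝓞 M) : M) =
        ((q : 𝓞 M) : M) ^ p * (y * z y ^ p) := by
      rw [← hx3, ← hy3]
      exact hM
    have huu : (((u⁻¹ : (𝓞 M)ˣ) : 𝓞 M) : M) * ((u : 𝓞 M) : M) = 1 := by
      rw [← map_mul, Units.inv_mul, map_one]
    refine ⟨u⁻¹, ((q : 𝓞 M) : M) * z y / (((r : 𝓞 M) : M) * z x),
      div_ne_zero (mul_ne_zero hqM hy2) (mul_ne_zero hrM hx2), ?_⟩
    have h7 : ((r : 𝓞 M) : M) * z x ≠ 0 := mul_ne_zero hrM hx2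
    rw [div_pow, mul_div_assoc', eq_div_iff (pow_ne_zero _ h7)]
    calc (x : M) * (((r : 𝓞 M) : M) * z x) ^ p
        = ((((u⁻¹ : (𝓞 M)ˣ) : 𝓞 M) : M) * ((u : 𝓞 M) : M)) *
          (((r : 𝓞 M) : M) ^ p * (x * z x ^ p)) := by rw [huu, mul_pow]; ring
      _ = (((u⁻¹ : (𝓞 M)ˣ) : 𝓞 M) : M) *
          (((r : 𝓞 M) : M) ^ p * (x * z x ^ p) * ((u : 𝓞 M) : M)) := by ring
      _ = (((u⁻¹ : (𝓞 M)ˣ) : 𝓞 M) : M) * (y : M) * (((q : 𝓞 M) : M) * z y) ^ p := by
          rw [hM', mul_pow]; ring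
  have hcard : F.card ≤ Fintype.card ((𝓞 M)ˣ ⧸ (powMonoidHom (α := (𝓞 M)ˣ) p).range) *
      (Finset.image cl F).card := by
    apply Finset.card_le_mul_card_image
    intro C hC
    obtain ⟨y, hy, hyC⟩ := Finset.mem_image.mp hC
    have hu : ∀ x : Mˣ, ∃ u : (𝓞 M)ˣ, x ∈ F → cl x = C →
        ∃ t : M, t ≠ 0 ∧ (x : M) = ((u : 𝓞 M) : M) * y * t ^ p := by
      intro x
      by_cases hx : x ∈ F ∧ cl x = C
      · obtain ⟨u, t, ht⟩ := hunit x hx.1 y hy (hx.2.trans hyC.symm)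
        exact ⟨u, fun _ _ => ⟨t, ht⟩⟩
      · exact ⟨1, fun h1 h2 => absurd ⟨h1, h2⟩ hx⟩
    choose u hu using hu
    rw [← Finset.card_univ]
    refine Finset.card_le_card_of_injOn
      (fun x => (QuotientGroup.mk (u x) : (𝓞 M)ˣ ⧸ (powMonoidHom (α := (𝓞 M)ˣ) p).range))
      (fun _ _ => Finset.mem_coe.mpr (Finset.mem_univ _)) ?_
    intro x hx x' hx' hxx'
    have hx1 := (Finset.mem_filter.mp hx)
    have hx1' := (Finset.mem_filter.mp hx')
    by_contra hne
    apply hF2 x hx1.1 x' hx1'.1 hne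
    obtain ⟨t, ht0, ht⟩ := hu x hx1.1 hx1.2
    obtain ⟨t', ht0', ht'⟩ := hu x' hx1'.1 hx1'.2
    have h1 : (u x')⁻¹ * u x ∈ (powMonoidHom (α := (𝓞 M)ˣ) p).range :=
      QuotientGroup.eq.mp (Eq.symm hxx')
    obtain ⟨s, hs⟩ := h1
    have hs' : u x = u x' * s ^ p := by
      rw [← powMonoidHom_apply, hs]; group
    have hsM : ((u x : 𝓞 M) : M) = ((u x' : 𝓞 M) : M) * (((s : 𝓞 M) : M)) ^ p := by
      rw [hs', Units.val_mul, Units.val_pow_eq_pow_val]
      exact (map_mul (algebraMap (𝓞 M) M) _ _).trans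
        (congrArg _ (map_pow (algebraMap (𝓞 M) M) _ _))
    have hs0 : ((s : 𝓞 M) : M) ≠ 0 := by
      rw [Ne, FaithfulSMul.algebraMap_eq_zero_iff]; exact s.ne_zero
    refine ⟨Units.mk0 (((s : 𝓞 M) : M) * t / t') (div_ne_zero (mul_ne_zero hs0 ht0) ht0'), ?_⟩
    apply Units.ext
    rw [Units.val_div_eq_div_val, Units.val_pow_eq_pow_val, Units.val_mk0, div_pow,
      div_eq_div_iff x'.ne_zero (pow_ne_zero _ ht0')]
    rw [ht, ht', hsM, mul_pow]
    ring
  refine hcard.trans (Nat.mul_le_mul_left _ ?_)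
  rw [← Finset.card_univ]
  exact Finset.card_le_card (Finset.subset_univ _)

end Pool.Agent.Helper19.RD
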